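import Mathlib

/-!
Positive definiteness of the kernel `exp (-μ (s ∆ t))` on finite families of measurable sets, with
an explicit lower bound of the quadratic form in terms of the total weight.
-/

set_option autoImplicit false

namespace Pool.Agent.Q183.Mag

open Finset MeasureTheory

section Cube

variable {ι κ : Type*} [Fintype ι] [Fintype κ] [DecidableEq κ]

/-- Character expansion of the quadratic form of a product kernel on a cube. -/
lemma quad_expand (x : ι → κ → ℝ) (a b : κ → ℝ) (w : ι → ℝ) :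
    ∑ i, ∑ j, w i * w j * ∏ k, (b k * (x i k * x j k) + a k) =
      ∑ S : Finset κ, (∏ k ∈ S, b k) * (∏ k ∈ univ \ S, a k) *
        (∑ i, w i * ∏ k ∈ S, x i k) ^ 2 := by
  have h1 : ∀ i j, ∏ k, (b k * (x i k * x j k) + a k) =
      ∑ S : Finset κ, (∏ k ∈ S, b k) * (∏ k ∈ univ \ S, a k) *
        ((∏ k ∈ S, x i k) * ∏ k ∈ S, x j k) := by
    intro i j
    rw [Finset.prod_add, Finset.powerset_univ]
    refine Finset.sum_congr rfl fun S _ => ?_
    rw [Finset.prod_mul_distrib, Finset.prod_mul_distrib]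
    ring
  simp only [h1, Finset.mul_sum]
  have h2 : ∀ i, ∑ j, ∑ S : Finset κ, w i * w j * ((∏ k ∈ S, b k) * (∏ k ∈ univ \ S, a k) *
        ((∏ k ∈ S, x i k) * ∏ k ∈ S, x j k)) = ∑ S : Finset κ, ∑ j, w i * w j *
        ((∏ k ∈ S, b k) * (∏ k ∈ univ \ S, a k) *
        ((∏ k ∈ S, x i k) * ∏ k ∈ S, x j k)) := fun i => Finset.sum_comm
  simp only [h2]
  rw [Finset.sum_comm]
  refine Finset.sum_congr rfl fun S _ => ?_
  rw [sq, Finset.sum_mul_sum, Finset.mul_sum]
  refine Finset.sum_congr rfl fun i _ => ?_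
  rw [Finset.mul_sum]
  refine Finset.sum_congr rfl fun j _ => ?_
  ring

/-- Lower bound of the quadratic form by the total weight. -/
lemma quad_ge (x : ι → κ → ℝ) (a b : κ → ℝ) (ha : ∀ k, 0 ≤ a k) (hb : ∀ k, 0 ≤ b k) (w : ι → ℝ) :
    (∏ k, a k) * (∑ i, w i) ^ 2 ≤
      ∑ i, ∑ j, w i * w j * ∏ k, (b k * (x i k * x j k) + a k) := by
  rw [quad_expand]
  have h := Finset.single_le_sum (s := (univ : Finset (Finset κ)))
    (f := fun S : Finset κ => (∏ k ∈ S, b k) * (∏ k ∈ univ \ S, a k) *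
        (∑ i, w i * ∏ k ∈ S, x i k) ^ 2)
    (fun S _ => mul_nonneg (mul_nonneg (Finset.prod_nonneg fun k _ => hb k)
      (Finset.prod_nonneg fun k _ => ha k)) (sq_nonneg _)) (Finset.mem_univ ∅)
  simpa using h

/-- Strict positivity of the quadratic form. -/
lemma quad_pos (x : ι → κ → ℝ) (hx : ∀ i k, x i k = 1 ∨ x i k = -1) (a b : κ → ℝ)
    (ha : ∀ k, 0 < a k) (hb : ∀ k, 0 ≤ b k)
    (hsep : ∀ i j, i ≠ j → ∃ k, 0 < b k ∧ x i k ≠ x j k) (w : ι → ℝ) (hw : w ≠ 0) :
    0 < ∑ i, ∑ j, w i * w j * ∏ k, (b k * (x i k * x j k) + a k) := by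
  classical
  rw [quad_expand]
  have hnn : ∀ S : Finset κ, 0 ≤ (∏ k ∈ S, b k) * (∏ k ∈ univ \ S, a k) *
        (∑ i, w i * ∏ k ∈ S, x i k) ^ 2 := fun S =>
    mul_nonneg (mul_nonneg (Finset.prod_nonneg fun k _ => hb k)
      (Finset.prod_nonneg fun k _ => (ha k).le)) (sq_nonneg _)
  refine lt_of_le_of_ne (Finset.sum_nonneg fun S _ => hnn S) fun h0 => hw ?_
  have hz : ∀ S : Finset κ, (∏ k ∈ S, b k) * (∏ k ∈ univ \ S, a k) *
        (∑ i, w i * ∏ k ∈ S, x i k) ^ 2 = 0 := fun S =>
    (Finset.sum_eq_zero_iff_of_nonneg (fun S _ => hnn S)).1 h0.symm S (Finset.mem_univ S)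
  let P : Finset κ := univ.filter fun k => 0 < b k
  have hz' : ∀ S ⊆ P, ∑ i, w i * ∏ k ∈ S, x i k = 0 := by
    intro S hS
    have h := hz S
    have h1 : (∏ k ∈ S, b k) ≠ 0 := Finset.prod_ne_zero_iff.2 fun k hk =>
      (Finset.mem_filter.1 (hS hk)).2.ne'
    have h2 : (∏ k ∈ univ \ S, a k) ≠ 0 := Finset.prod_ne_zero_iff.2 fun k _ => (ha k).ne'
    simpa [h1, h2] using h
  funext i0
  have key : ∑ i, w i * ∏ k ∈ P, (x i k * x i0 k + 1) = 0 := by
    have : ∀ i, w i * ∏ k ∈ P, (x i k * x i0 k + 1) =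
        ∑ S ∈ P.powerset, (∏ k ∈ S, x i0 k) * (w i * ∏ k ∈ S, x i k) := by
      intro i
      rw [Finset.prod_add, Finset.mul_sum]
      refine Finset.sum_congr rfl fun S _ => ?_
      rw [Finset.prod_mul_distrib]
      simp
      ring
    simp only [this]
    rw [Finset.sum_comm]
    refine Finset.sum_eq_zero fun S hS => ?_
    rw [← Finset.mul_sum, hz' S (Finset.mem_powerset.1 hS), mul_zero]
  rw [Finset.sum_eq_single i0] at key
  · have h1 : ∏ k ∈ P, (x i0 k * x i0 k + 1) ≠ 0 := by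
      refine Finset.prod_ne_zero_iff.2 fun k _ => ?_
      have := mul_self_nonneg (x i0 k)
      positivity
    rcases mul_eq_zero.1 key with h | h
    · exact h
    · exact absurd h h1
  · intro i _ hi
    obtain ⟨k, hk, hne⟩ := hsep i i0 hi
    rw [Finset.prod_eq_zero (i := k) (by simp [P, hk]), mul_zero]
    rcases hx i k with h1 | h1 <;> rcases hx i0 k with h2 | h2
    · exact absurd (h1.trans h2.symm) hne
    · rw [h1, h2]; norm_num
    · rw [h1, h2]; norm_num
    · exact absurd (h1.trans h2.symm) hne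
  · intro h
    exact absurd (Finset.mem_univ i0) h

end Cube

section Measure

variable {Ω ι : Type*} [MeasurableSpace Ω] (μ : Measure Ω) [IsProbabilityMeasure μ]
  [Fintype ι] [DecidableEq ι]

open Classical in
/-- The atom map. -/
noncomputable def atom (s : ι → Set Ω) (ω : Ω) : Finset ι := univ.filter fun i => ω ∈ s i

omit [MeasurableSpace Ω] [DecidableEq ι] in
lemma mem_atom (s : ι → Set Ω) (ω : Ω) (i : ι) : i ∈ atom s ω ↔ ω ∈ s i := by
  simp [atom]

lemma measurable_atom_preimage (s : ι → Set Ω) (hs : ∀ i, MeasurableSet (s i)) (P : Finset ι) :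
    MeasurableSet (atom s ⁻¹' {P}) := by
  have : atom s ⁻¹' {P} = ⋂ i, (if i ∈ P then s i else (s i)ᶜ) := by
    ext ω
    simp only [Set.mem_preimage, Set.mem_singleton_iff, Set.mem_iInter]
    constructor
    · rintro rfl i
      by_cases h : ω ∈ s i
      · simp [mem_atom, h]
      · simp [mem_atom, h]
    · intro h
      ext i
      rw [mem_atom]
      have := h i
      by_cases hi : i ∈ P
      · simpa [hi] using this
      · simpa [hi] using this
  rw [this]
  refine MeasurableSet.iInter fun i => ?_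
  split_ifs
  · exact hs i
  · exact (hs i).compl

/-- The measure of a set which is a union of atoms. -/
lemma measure_atoms (s : ι → Set Ω) (hs : ∀ i, MeasurableSet (s i)) (Q : Finset (Finset ι)) :
    μ.real (atom s ⁻¹' (Q : Set (Finset ι))) = ∑ P ∈ Q, μ.real (atom s ⁻¹' {P}) := by
  have h1 : atom s ⁻¹' (Q : Set (Finset ι)) = ⋃ P ∈ Q, atom s ⁻¹' {P} := by
    ext ω
    simp
  rw [h1, measureReal_biUnion_finset]
  · intro P _ P' _ hne
    refine Set.disjoint_left.2 fun ω h h' => hne ?_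
    exact (Set.mem_singleton_iff.1 h).symm.trans h'
  · intro P _
    exact measurable_atom_preimage s hs P

/-- The kernel of symmetric differences is a product kernel over the atoms. -/
lemma exp_symmDiff (s : ι → Set Ω) (hs : ∀ i, MeasurableSet (s i)) (i j : ι) :
    Real.exp (-μ.real (symmDiff (s i) (s j))) =
      ∏ P : Finset ι, ((1 - Real.exp (-μ.real (atom s ⁻¹' {P}))) / 2 *
        ((if i ∈ P then 1 else -1) * (if j ∈ P then 1 else -1)) +
        (1 + Real.exp (-μ.real (atom s ⁻¹' {P}))) / 2) := by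
  have h1 : symmDiff (s i) (s j) =
      atom s ⁻¹' ((univ.filter fun P : Finset ι => ¬ (i ∈ P ↔ j ∈ P) : Finset (Finset ι)) :
        Set (Finset ι)) := by
    ext ω
    simp only [Set.mem_symmDiff, Set.mem_preimage, Finset.coe_filter, Finset.mem_univ, true_and,
      Set.mem_ofPred_eq, mem_atom]
    tauto
  rw [h1, measure_atoms μ s hs, ← Finset.sum_neg_distrib, Real.exp_sum, Finset.prod_filter]
  refine Finset.prod_congr rfl fun P _ => ?_
  by_cases hi : i ∈ P <;> by_cases hj : j ∈ P <;> simp [hi, hj] <;> ring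

lemma sum_atoms (s : ι → Set Ω) (hs : ∀ i, MeasurableSet (s i)) :
    ∑ P : Finset ι, μ.real (atom s ⁻¹' {P}) = 1 := by
  have := measure_atoms μ s hs univ
  rw [← this]
  simp

lemma prod_ge (s : ι → Set Ω) (hs : ∀ i, MeasurableSet (s i)) :
    Real.exp (-(1 / 2)) ≤ ∏ P : Finset ι, (1 + Real.exp (-μ.real (atom s ⁻¹' {P}))) / 2 := by
  have h1 : Real.exp (-(1 / 2)) = ∏ P : Finset ι, Real.exp (-(μ.real (atom s ⁻¹' {P}) / 2)) := by
    rw [← Real.exp_sum, Finset.sum_neg_distrib, ← Finset.sum_div, sum_atoms μ s hs]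
  rw [h1]
  refine Finset.prod_le_prod (fun P _ => (Real.exp_pos _).le) fun P _ => ?_
  have h2 : Real.exp (-μ.real (atom s ⁻¹' {P})) =
      Real.exp (-(μ.real (atom s ⁻¹' {P}) / 2)) ^ 2 := by
    rw [← Real.exp_nat_mul]
    congr 1
    push_cast
    ring
  rw [h2]
  nlinarith [sq_nonneg (1 - Real.exp (-(μ.real (atom s ⁻¹' {P}) / 2)))]

/-- The quadratic form of `exp (-μ (s ∆ t))` bounds the square of the total weight. -/
theorem symmDiff_quad_ge (s : ι → Set Ω) (hs : ∀ i, MeasurableSet (s i)) (w : ι → ℝ) :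
    Real.exp (-(1 / 2)) * (∑ i, w i) ^ 2 ≤
      ∑ i, ∑ j, w i * w j * Real.exp (-μ.real (symmDiff (s i) (s j))) := by
  have h := quad_ge (fun (i : ι) (P : Finset ι) => if i ∈ P then (1 : ℝ) else -1)
    (fun P => (1 + Real.exp (-μ.real (atom s ⁻¹' {P}))) / 2)
    (fun P => (1 - Real.exp (-μ.real (atom s ⁻¹' {P}))) / 2)
    (fun P => by positivity) (fun P => by
      have : Real.exp (-μ.real (atom s ⁻¹' {P})) ≤ 1 := Real.exp_le_one_iff.2
        (neg_nonpos.2 measureReal_nonneg)
      linarith) w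
  simp only [exp_symmDiff μ s hs]
  refine le_trans ?_ h
  exact mul_le_mul_of_nonneg_right (prod_ge μ s hs) (sq_nonneg _)

/-- The kernel `exp (-μ (s ∆ t))` is strictly positive definite on finite families of measurable
sets which are pairwise not almost everywhere equal. -/
theorem symmDiff_quad_pos (s : ι → Set Ω) (hs : ∀ i, MeasurableSet (s i))
    (hsep : ∀ i j, i ≠ j → 0 < μ.real (symmDiff (s i) (s j))) (w : ι → ℝ) (hw : w ≠ 0) :
    0 < ∑ i, ∑ j, w i * w j * Real.exp (-μ.real (symmDiff (s i) (s j))) := by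
  simp only [exp_symmDiff μ s hs]
  refine quad_pos (fun (i : ι) (P : Finset ι) => if i ∈ P then (1 : ℝ) else -1) ?_
    (fun P => (1 + Real.exp (-μ.real (atom s ⁻¹' {P}))) / 2)
    (fun P => (1 - Real.exp (-μ.real (atom s ⁻¹' {P}))) / 2)
    (fun P => by positivity) (fun P => by
      have : Real.exp (-μ.real (atom s ⁻¹' {P})) ≤ 1 := Real.exp_le_one_iff.2
        (neg_nonpos.2 measureReal_nonneg)
      linarith) ?_ w hw
  · intro i P
    by_cases h : i ∈ P <;> simp [h]
  · intro i j hij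
    have h1 : symmDiff (s i) (s j) =
        atom s ⁻¹' ((univ.filter fun P : Finset ι => ¬ (i ∈ P ↔ j ∈ P) : Finset (Finset ι)) :
          Set (Finset ι)) := by
      ext ω
      simp only [Set.mem_symmDiff, Set.mem_preimage, Finset.coe_filter, Finset.mem_univ, true_and,
        Set.mem_ofPred_eq, mem_atom]
      tauto
    have h2 := hsep i j hij
    rw [h1, measure_atoms μ s hs] at h2
    obtain ⟨P, hP, hP0⟩ := Finset.exists_lt_of_sum_lt (f := fun _ => (0 : ℝ)) (by simpa using h2)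
    refine ⟨P, ?_, ?_⟩
    · have : Real.exp (-μ.real (atom s ⁻¹' {P})) < 1 := Real.exp_lt_one_iff.2 (by linarith)
      linarith
    · have := (Finset.mem_filter.1 hP).2
      by_cases hi : i ∈ P <;> by_cases hj : j ∈ P <;> simp [hi, hj] at this ⊢ <;> norm_num

end Measure

end Pool.Agent.Q183.Mag
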